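import Pool.Agent.W653.SC.Defs

set_option autoImplicit false

/-! SC-HAAR: the lassos are independent and uniformly distributed. -/

open MeasureTheory Matrix

namespace Pool.Agent.W64.SC

open Pool.Agent.W653.SC

section

variable {G : Type} [Group G] {k : ℕ}

lemma not_mem_Sc {i : Fin (k + 1)} {c : Fin 3} (hc : c ≠ 2) : (i, c) ∉ Sc k := by
  unfold Sc
  rw [Finset.mem_image]
  rintro ⟨j, -, hj⟩
  exact hc (congrArg Prod.snd hj).symm

lemma mem_Sc (i : Fin k) : (i.castSucc, (2 : Fin 3)) ∈ Sc k := by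
  unfold Sc
  rw [Finset.mem_image]
  exact ⟨i, Finset.mem_univ _, rfl⟩

lemma Pp_congr (U V : Tm k → G) (h : ∀ j : Fin (k + 1), U (j, 0) = V (j, 0)) (i : ℕ) :
    Pp U i = Pp V i := by
  induction i with
  | zero => rfl
  | succ i ih =>
    show Pp U i * U (Fin.ofNat (k + 1) i, 0) = Pp V i * V (Fin.ofNat (k + 1) i, 0)
    rw [ih, h]

/-- left factor -/
noncomputable def fA (U : Tm k → G) (t : Tm k) : G := Pp U t.1 * U (t.1, 1)

/-- right factor -/
noncomputable def fB (U : Tm k → G) (t : Tm k) : G :=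
  (U (t.1 + 1, 1))⁻¹ * (U (t.1, 0))⁻¹ * (Pp U t.1)⁻¹

lemma Wl_eq (U V W : Tm k → G) (h0 : ∀ j : Fin (k + 1), W (j, 0) = U (j, 0))
    (h1 : ∀ j : Fin (k + 1), W (j, 1) = U (j, 1)) (h2 : ∀ i : Fin k, W (i.castSucc, 2) =
      V (i.castSucc, 2)) (i : Fin k) :
    Wl W i = fA U (i.castSucc, 2) * V (i.castSucc, 2) * fB U (i.castSucc, 2) := by
  unfold Wl fA fB
  have h3 : Pp W i = Pp U i := Pp_congr W U h0 i
  have h4 : (i.castSucc : Fin (k + 1)) + 1 = i.succ := Fin.coeSucc_eq_succ
  simp only [Fin.val_castSucc]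
  rw [h3, h0, h1, h1, h2, h4]
  group

end

theorem main : StmtHaar := by
  intro G _ _ _ _ _ _ _ μ _ _ _ k H U hH
  let A : Tm k ⊕ Tm k → G := Sum.elim (fA (U ∘ Sum.inl)) (fA (U ∘ Sum.inr))
  let B : Tm k ⊕ Tm k → G := Sum.elim (fB (U ∘ Sum.inl)) (fB (U ∘ Sum.inr))
  let F : (Tm k ⊕ Tm k → G) → ℝ := fun V => H (fun i => V (Sum.inl (i.castSucc, 2)))
    (fun i => V (Sum.inr (i.castSucc, 2)))
  have hF : Continuous F := by
    refine hH.comp (Continuous.prodMk ?_ ?_)
    · exact continuous_pi fun i => continuous_apply _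
    · exact continuous_pi fun i => continuous_apply _
  have hmp : MeasurePreserving (fun (V : Tm k ⊕ Tm k → G) e => A e * V e * B e)
      (Measure.pi fun _ => μ) (Measure.pi fun _ => μ) := by
    have h : ∀ e : Tm k ⊕ Tm k, MeasurePreserving (fun g : G => A e * g * B e) μ μ := fun e =>
      (measurePreserving_mul_right μ (B e)).comp (measurePreserving_mul_left μ (A e))
    exact measurePreserving_pi (fun _ => μ) (fun _ => μ) h
  have h1 : ∀ V : Tm k ⊕ Tm k → G,
      H (Wl (mix (Sc2 k) V U ∘ Sum.inl)) (Wl (mix (Sc2 k) V U ∘ Sum.inr)) =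
      F (fun e => A e * V e * B e) := by
    intro V
    have hl : Wl (mix (Sc2 k) V U ∘ Sum.inl) = fun i => A (Sum.inl (i.castSucc, 2)) *
        V (Sum.inl (i.castSucc, 2)) * B (Sum.inl (i.castSucc, 2)) := by
      funext i
      refine Wl_eq (U ∘ Sum.inl) (V ∘ Sum.inl) _ (fun j => ?_) (fun j => ?_) (fun j => ?_) i
      · show mix (Sc2 k) V U (Sum.inl (j, 0)) = _
        unfold mix Sc2
        rw [if_neg]
        · rfl
        · rw [Finset.inl_mem_disjSum]
          exact not_mem_Sc (by decide)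
      · show mix (Sc2 k) V U (Sum.inl (j, 1)) = _
        unfold mix Sc2
        rw [if_neg]
        · rfl
        · rw [Finset.inl_mem_disjSum]
          exact not_mem_Sc (by decide)
      · show mix (Sc2 k) V U (Sum.inl (j.castSucc, 2)) = _
        unfold mix Sc2
        rw [if_pos]
        · rfl
        · rw [Finset.inl_mem_disjSum]
          exact mem_Sc j
    have hr : Wl (mix (Sc2 k) V U ∘ Sum.inr) = fun i => A (Sum.inr (i.castSucc, 2)) *
        V (Sum.inr (i.castSucc, 2)) * B (Sum.inr (i.castSucc, 2)) := by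
      funext i
      refine Wl_eq (U ∘ Sum.inr) (V ∘ Sum.inr) _ (fun j => ?_) (fun j => ?_) (fun j => ?_) i
      · show mix (Sc2 k) V U (Sum.inr (j, 0)) = _
        unfold mix Sc2
        rw [if_neg]
        · rfl
        · rw [Finset.inr_mem_disjSum]
          exact not_mem_Sc (by decide)
      · show mix (Sc2 k) V U (Sum.inr (j, 1)) = _
        unfold mix Sc2
        rw [if_neg]
        · rfl
        · rw [Finset.inr_mem_disjSum]
          exact not_mem_Sc (by decide)
      · show mix (Sc2 k) V U (Sum.inr (j.castSucc, 2)) = _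
        unfold mix Sc2
        rw [if_pos]
        · rfl
        · rw [Finset.inr_mem_disjSum]
          exact mem_Sc j
    rw [hl, hr]
  simp only [h1]
  have h2 := integral_map (μ := (Measure.pi fun _ : Tm k ⊕ Tm k => μ)) (f := F)
    hmp.measurable.aemeasurable hF.aestronglyMeasurable
  rw [hmp.map_eq] at h2
  exact h2.symm

end Pool.Agent.W64.SC
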